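import Mathlib
import Pool.Agent.H568R2.Defs
import Pool.Agent.V8H46.Dom.Final

/-!
# Unconditional constant-depth inapproximability of the dominating number

For every function `f` (computable or not) there is no family of circuits of constant depth and of
size `n ^ o(k)` that approximates the dominating number with ratio `f k`. No hypothesis is assumed.
The functions `h` and `g` in the size bound `h k * n ^ g k` may be arbitrary, too.

The definitions (`Circuit`, `Circuit.eval`, `Circuit.depth`, `Circuit.size`, `Pairs`, `adjBits`,
`domNumber`, `ConstDepthLittleO`, `Approximates`) are in `Pool/Agent/H568R2/Defs.lean`.

Proof. Consider `k` variables over a domain of size `n` and `k` constraints, each on `21`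
variables, whose scopes form a random-like expanding hypergraph; the input consists of the bits
that say which tuples are allowed. By a switching-lemma argument (restrictions which keep few
allowed tuples, a planted solution, and the observation that the number of planted constraints on
which a gate depends cannot jump over the range from `k / 4` to `k / 2`) circuits of depth `d` that
decide this problem have size at least `n ^ (c * k)` for an absolute constant `c > 0`. The problem
is reduced to approximating the dominating number, with the same parameter `k`, by a reduction each
of whose output bits depends on at most one input bit; the gap is created by hashing the domain.
-/

set_option autoImplicit false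

namespace Pool.Agent.Results.MP_01def2_lc.NoConstantDepth

open DomAC0

/-- **Positive answer to Q1**: for every `f`, no constant-depth family of size `n ^ o(k)`
approximates the dominating number with ratio `f k`. -/
theorem result : ∀ f : ℕ → ℕ, ¬ ∃ C : (n k : ℕ) → Circuit (Pairs n),
    ConstDepthLittleO C ∧ Approximates C f :=
  fun f ⟨C, h1, h2⟩ => Pool.Agent.V8H46.Dom.main f C h1 h2

end Pool.Agent.Results.MP_01def2_lc.NoConstantDepth
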